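import Pool.Agent.MP_887f27_pr.H69.Spec

/-! Edge expansion for events with finite range of dependence, and the formula of Russo. -/

namespace Pool.Agent.MP_887f27_pr.H12

open MeasureTheory ProbabilityTheory Set Pool.Agent.MP_887f27_pr.H69
open scoped ENNReal

/-- The averaging operator over the four neighbours. -/
noncomputable def avg (F : Cfg → ℝ) : Cfg → ℝ := fun x => 1 / 4 * ∑ d : Dir, F (sh (g d) x)

/-- Measurable and bounded by one. -/
def BM (F : Cfg → ℝ) : Prop := Measurable F ∧ ∀ x, |F x| ≤ 1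

lemma BM.sh {F : Cfg → ℝ} (h : BM F) (u : V) : BM fun x => F (sh u x) :=
  ⟨h.1.comp (measurable_sh u), fun _ => h.2 _⟩

lemma BM.avg {F : Cfg → ℝ} (h : BM F) : BM (avg F) := by
  refine ⟨(Finset.measurable_sum _ fun d _ => (h.sh (g d)).1).const_mul _, fun x => ?_⟩
  have h1 : |∑ d : Dir, F (H69.sh (g d) x)| ≤ ∑ _d : Dir, (1 : ℝ) :=
    (Finset.abs_sum_le_sum_abs _ _).trans (Finset.sum_le_sum fun d _ => h.2 _)
  have h2 : ∑ _d : Dir, (1 : ℝ) = 4 := by simp
  unfold H12.avg
  rw [abs_mul, abs_of_pos (by norm_num : (0 : ℝ) < 1 / 4)]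
  linarith

lemma BM.iter {F : Cfg → ℝ} (h : BM F) (n : ℕ) : BM (H12.avg^[n] F) := by
  induction n with
  | zero => exact h
  | succ n ih => rw [Function.iterate_succ_apply']; exact ih.avg

variable {lam : Measure Cfg} [IsProbabilityMeasure lam]

lemma BM.int_mul {F G : Cfg → ℝ} (hF : BM F) (hG : BM G) :
    Integrable (fun x => F x * G x) lam := by
  refine Integrable.of_bound (hF.1.mul hG.1).aestronglyMeasurable 1 (ae_of_all _ fun x => ?_)
  rw [Real.norm_eq_abs, abs_mul]
  exact mul_le_one₀ (hF.2 x) (abs_nonneg _) (hG.2 x)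

lemma int_mul_avg {F G : Cfg → ℝ} (hF : BM F) (hG : BM G) (u : V) :
    ∫ x, F x * avg G (sh u x) ∂lam = 1 / 4 * ∑ d : Dir, ∫ x, F x * G (sh (u * g d) x) ∂lam := by
  rw [← integral_finsetSum _ fun d _ => hF.int_mul (hG.sh (u * g d)), ← integral_const_mul]
  congr 1
  funext x
  simp only [avg, sh_sh, ← Finset.mul_sum]
  ring

lemma sh_one' (x : Cfg) : sh 1 x = x := by funext v; simp [sh]

omit [IsProbabilityMeasure lam] in
lemma int_sh (hl : Inv lam) {F G : Cfg → ℝ} (hF : BM F) (hG : BM G) (u : V) :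
    ∫ x, F x * G (sh u x) ∂lam = ∫ x, G x * F (sh u⁻¹ x) ∂lam := by
  have hm : Measurable fun x => F x * G (sh u x) := hF.1.mul (hG.sh u).1
  have h1 := integral_map (μ := lam) (measurable_sh (α := Bool) u⁻¹).aemeasurable
    (f := fun x => F x * G (sh u x)) hm.aestronglyMeasurable
  rw [(hl u⁻¹).map_eq] at h1
  rw [h1]
  congr 1
  funext x
  rw [sh_sh, inv_mul_cancel, mul_comm, sh_one']

lemma adj (hl : Inv lam) {F G : Cfg → ℝ} (hF : BM F) (hG : BM G) :
    ∫ x, F x * avg G x ∂lam = ∫ x, G x * avg F x ∂lam := by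
  have h1 := int_mul_avg (lam := lam) hF hG 1
  have h2 := int_mul_avg (lam := lam) hG hF 1
  simp only [sh_one', one_mul] at h1 h2
  rw [h1, h2, ← sum_rev fun d => ∫ x, G x * F (sh (g d) x) ∂lam]
  congr 1
  refine Finset.sum_congr rfl fun d _ => ?_
  rw [int_sh hl hF hG, g_rev]

lemma adj_iter (hl : Inv lam) {F : Cfg → ℝ} (hF : BM F) (n : ℕ) : ∀ {G : Cfg → ℝ}, BM G →
    ∫ x, avg^[n] F x * G x ∂lam = ∫ x, F x * avg^[n] G x ∂lam := by
  induction n with
  | zero => intro G _; rfl
  | succ n ih =>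
    intro G hG
    rw [Function.iterate_succ_apply', Function.iterate_succ_apply, ← ih hG.avg,
      adj hl (hF.iter n) hG]
    simp only [mul_comm]

lemma cs {F G : Cfg → ℝ} (hF : BM F) (hG : BM G) :
    (∫ x, F x * G x ∂lam) ^ 2 ≤ (∫ x, F x * F x ∂lam) * ∫ x, G x * G x ∂lam := by
  have key : ∀ t : ℝ, 0 ≤ (∫ x, F x * F x ∂lam) * (t * t) + (2 * ∫ x, F x * G x ∂lam) * t +
      ∫ x, G x * G x ∂lam := by
    intro t
    have h0 : 0 ≤ ∫ x, (t * F x + G x) ^ 2 ∂lam := integral_nonneg fun x => sq_nonneg _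
    have h1 : (fun x => (t * F x + G x) ^ 2) =
        fun x => (t * t) * (F x * F x) + (2 * t) * (F x * G x) + G x * G x := by
      funext x; ring
    rw [h1, integral_add, integral_add, integral_const_mul, integral_const_mul] at h0
    · linarith
    · exact (hF.int_mul hF).const_mul _
    · exact (hF.int_mul hG).const_mul _
    · exact ((hF.int_mul hF).const_mul _).add ((hF.int_mul hG).const_mul _)
    · exact hG.int_mul hG
  have := discrim_le_zero key
  unfold discrim at this
  nlinarith

lemma sum_half (u : V) :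
    1 / 4 * ∑ d : Dir, ((1 : ℝ) / 2) ^ nrm (u * g d) ≤ 7 / 8 * (1 / 2) ^ nrm u := by
  have hp : (0 : ℝ) < (1 / 2) ^ nrm u := by positivity
  have h4 : ∑ _d : Dir, (1 / 2 * (1 / 2 : ℝ) ^ nrm u) = 2 * (1 / 2) ^ nrm u := by
    simp; ring
  by_cases h : ∃ d0, nrm (u * g d0) + 1 = nrm u
  · obtain ⟨d0, h0⟩ := h
    have h1 : ∀ d, ((1 : ℝ) / 2) ^ nrm (u * g d) =
        1 / 2 * (1 / 2) ^ nrm u + if d = d0 then 3 / 2 * (1 / 2) ^ nrm u else 0 := by
      intro d
      by_cases hd : d = d0
      · subst hd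
        rw [if_pos rfl, ← h0, pow_succ]; ring
      · rcases nrm_step u d with a | a
        · exact absurd (inward_unique a h0) hd
        · rw [if_neg hd, a, pow_succ]; ring
    simp only [h1, Finset.sum_add_distrib, h4, Finset.sum_ite_eq', Finset.mem_univ, if_true]
    linarith
  · push Not at h
    have h1 : ∀ d, ((1 : ℝ) / 2) ^ nrm (u * g d) = 1 / 2 * (1 / 2) ^ nrm u := by
      intro d
      rcases nrm_step u d with a | a
      · exact absurd a (h d)
      · rw [a, pow_succ]; ring
    simp only [h1, h4]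
    linarith

lemma decay {F : Cfg → ℝ} (hF : BM F) {C : ℝ} (hC : 0 ≤ C)
    (h : ∀ u, |∫ x, F x * F (sh u x) ∂lam| ≤ C * (1 / 2) ^ nrm u) (n : ℕ) :
    ∀ u, |∫ x, F x * avg^[n] F (sh u x) ∂lam| ≤ C * (7 / 8) ^ n * (1 / 2) ^ nrm u := by
  induction n with
  | zero => simpa using h
  | succ n ih =>
    intro u
    rw [Function.iterate_succ_apply', int_mul_avg hF (hF.iter n), abs_mul,
      abs_of_pos (by norm_num : (0 : ℝ) < 1 / 4)]
    have h1 := (Finset.abs_sum_le_sum_abs _ _).trans
      (Finset.sum_le_sum fun d (_ : d ∈ Finset.univ) => ih (u * g d))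
    rw [← Finset.mul_sum] at h1
    have h2 := mul_le_mul_of_nonneg_left (sum_half u) (show 0 ≤ C * (7 / 8) ^ n by positivity)
    calc _ ≤ 1 / 4 * (C * (7 / 8) ^ n * ∑ d : Dir, ((1 : ℝ) / 2) ^ nrm (u * g d)) := by gcongr
      _ = C * (7 / 8) ^ n * (1 / 4 * ∑ d : Dir, ((1 : ℝ) / 2) ^ nrm (u * g d)) := by ring
      _ ≤ _ := h2
      _ = _ := by ring

lemma gap {a : ℕ → ℝ} {C : ℝ} (h0 : 0 ≤ a 0) (hcs : ∀ n, a n ^ 2 ≤ a 0 * a (n + n))
    (hd : ∀ n, a n ≤ C * (7 / 8) ^ n) : a 1 ≤ 7 / 8 * a 0 := by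
  by_contra hc
  push Not at hc
  have hpos : 0 < a 0 := by
    rcases h0.eq_or_lt with h | h
    · have := hcs 1
      rw [← h] at this hc
      nlinarith
    · exact h
  set t := a 1 / a 0 with ht
  have ht1 : 7 / 8 < t := by rw [ht, lt_div_iff₀ hpos]; exact hc
  have key : ∀ i : ℕ, t ^ 2 ^ i * a 0 ≤ a (2 ^ i) := by
    intro i
    induction i with
    | zero => simp [ht, hpos.ne']
    | succ i ih =>
      have h1 := hcs (2 ^ i)
      have h2 : (t ^ 2 ^ i * a 0) ^ 2 ≤ a (2 ^ i) ^ 2 :=
        pow_le_pow_left₀ (by positivity) ih 2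
      rw [← two_mul, ← pow_succ'] at h1
      refine le_of_mul_le_mul_left ?_ hpos
      calc a 0 * (t ^ 2 ^ (i + 1) * a 0) = (t ^ 2 ^ i * a 0) ^ 2 := by
            rw [pow_succ 2 i, pow_mul]; ring
        _ ≤ _ := h2.trans h1
  have hs : 1 < t / (7 / 8) := by rw [lt_div_iff₀ (by norm_num)]; linarith
  obtain ⟨i, hi⟩ := pow_unbounded_of_one_lt (C / a 0) hs
  have h3 : (t / (7 / 8)) ^ i ≤ (t / (7 / 8)) ^ 2 ^ i :=
    pow_le_pow_right₀ hs.le Nat.lt_two_pow_self.le
  have h4 := (key i).trans (hd _)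
  have h5 := hi.trans_le h3
  rw [div_pow, div_lt_div_iff₀ hpos (by positivity)] at h5
  linarith

theorem x1 : X1Stmt := by
  rintro lam _ hl A hA ⟨r, hr⟩
  set μ := lam.real A with hμ
  have hμ0 : 0 ≤ μ := measureReal_nonneg
  have hμ1 : μ ≤ 1 := measureReal_le_one
  let f : Cfg → ℝ := fun x => A.indicator 1 x - μ
  have hf : BM f := by
    refine ⟨(measurable_one.indicator hA).sub_const _, fun x => ?_⟩
    by_cases hx : x ∈ A
    · simp only [f, indicator_of_mem hx, Pi.one_apply]; rw [abs_le]; constructor <;> linarith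
    · simp only [f, indicator_of_notMem hx]; rw [abs_le]; constructor <;> linarith
  have hb : ∀ u, ∫ x, f x * f (sh u x) ∂lam = lam.real {x | x ∈ A ∧ sh u x ∈ A} - μ ^ 2 := by
    intro u
    have hB : MeasurableSet (sh u ⁻¹' A) := hA.preimage (measurable_sh u)
    have e : (fun x => f x * f (sh u x)) = fun x => (A ∩ sh u ⁻¹' A).indicator 1 x -
        μ * A.indicator 1 x - μ * (sh u ⁻¹' A).indicator 1 x + μ ^ 2 := by
      funext x
      by_cases h1 : x ∈ A <;> by_cases h2 : sh u x ∈ A <;> simp [f, indicator, h1, h2] <;> ring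
    have i1 : ∀ {B : Set Cfg}, MeasurableSet B →
        Integrable (fun x => B.indicator (1 : Cfg → ℝ) x) lam :=
      fun hB => (integrable_const (1 : ℝ)).indicator hB
    rw [e, integral_add, integral_sub, integral_sub, integral_const_mul, integral_const_mul,
      integral_indicator_one hA, integral_indicator_one hB, integral_indicator_one (hA.inter hB),
      (hl u).measureReal_preimage hA.nullMeasurableSet]
    · simp only [integral_const, probReal_univ, smul_eq_mul, one_mul]
      have : (A ∩ sh u ⁻¹' A) = {x | x ∈ A ∧ sh u x ∈ A} := rfl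
      rw [this]; ring
    · exact i1 (hA.inter hB)
    · exact (i1 hA).const_mul _
    · exact (i1 (hA.inter hB)).sub ((i1 hA).const_mul _)
    · exact (i1 hB).const_mul _
    · exact ((i1 (hA.inter hB)).sub ((i1 hA).const_mul _)).sub ((i1 hB).const_mul _)
    · exact integrable_const _
  have hdec : ∀ u, |∫ x, f x * f (sh u x) ∂lam| ≤ 2 ^ r * (1 / 2) ^ nrm u := by
    intro u
    by_cases hu : r < nrm u
    · rw [hb, hr u hu, sub_self, abs_zero]; positivity
    · have h1 : |∫ x, f x * f (sh u x) ∂lam| ≤ 1 := by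
        have := norm_integral_le_of_norm_le_const (μ := lam) (f := fun x => f x * f (sh u x))
          (C := 1) (ae_of_all _ fun x => by
            rw [Real.norm_eq_abs, abs_mul]
            exact mul_le_one₀ (hf.2 x) (abs_nonneg _) (hf.2 _))
        simpa using this
      refine h1.trans ?_
      rw [one_div, inv_pow, ← div_eq_mul_inv, le_div_iff₀ (by positivity), one_mul]
      exact pow_le_pow_right₀ (by norm_num) (by omega)
  have hg := gap (a := fun n => ∫ x, f x * avg^[n] f x ∂lam) (C := 2 ^ r)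
    (integral_nonneg fun x => mul_self_nonneg _)
    (fun n => by
      have h1 := cs (lam := lam) hf (hf.iter n)
      rw [adj_iter hl hf n (hf.iter n), ← Function.iterate_add_apply] at h1
      exact h1)
    (fun n => by
      have h1 := decay hf (by positivity) hdec n 1
      simp only [sh_one', nrm_one, pow_zero, mul_one] at h1
      exact (le_abs_self _).trans h1)
  have a0 : ∫ x, f x * avg^[0] f x ∂lam = μ - μ ^ 2 := by
    have := hb 1
    simp only [sh_one', and_self, ofPred_mem_eq] at this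
    exact this
  have a1 : ∫ x, f x * avg^[1] f x ∂lam =
      1 / 4 * ∑ d : Dir, (lam.real {x | x ∈ A ∧ sh (g d) x ∈ A} - μ ^ 2) := by
    have := int_mul_avg (lam := lam) hf hf 1
    simp only [sh_one', one_mul, hb] at this
    exact this
  have hsplit : ∀ d : Dir, lam.real {x | x ∈ A ∧ sh (g d) x ∉ A} =
      (μ - μ ^ 2) - (lam.real {x | x ∈ A ∧ sh (g d) x ∈ A} - μ ^ 2) := by
    intro d
    have := measureReal_inter_add_sdiff (μ := lam) (s := A) (hA.preimage (measurable_sh (g d)))
    have e1 : A ∩ sh (g d) ⁻¹' A = {x | x ∈ A ∧ sh (g d) x ∈ A} := rfl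
    have e2 : A \ sh (g d) ⁻¹' A = {x | x ∈ A ∧ sh (g d) x ∉ A} := rfl
    rw [e1, e2] at this
    linarith
  simp only [a0, a1] at hg
  simp only [hsplit]
  rw [Finset.sum_sub_distrib]
  have h4 : ∑ _d : Dir, (μ - μ ^ 2) = 4 * (μ - μ ^ 2) := by simp; ring
  rw [h4]
  linarith

lemma measurable_upd (h : V) (b : Bool) :
    Measurable fun ω : Om => ((ω.1, Function.update ω.2 h b) : Om) :=
  measurable_fst.prodMk (measurable_update_left.comp measurable_snd)

lemma split (μ : Measure (Clk × Mrk)) [IsProbabilityMeasure μ] {A : Set Om}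
    (hA : MeasurableSet A) (h : V) {s : ℝ} (h0 : 0 ≤ s) (h1 : s ≤ 1) :
    (μ.prod (nu s)).real A =
      s * (μ.prod (nu s)).real {ω | (ω.1, Function.update ω.2 h true) ∈ A} +
        (1 - s) * (μ.prod (nu s)).real {ω | (ω.1, Function.update ω.2 h false) ∈ A} := by
  have key : ∀ b : Bool, (μ.prod (nu s)) (A ∩ {ω | ω.2 h = b}) =
      ber s {b} * (μ.prod (nu s)) {ω | (ω.1, Function.update ω.2 h b) ∈ A} := by
    intro b
    have m1 : MeasurableSet {ω : Om | ω.2 h = b} :=
      (measurableSet_singleton b).preimage ((measurable_pi_apply h).comp measurable_snd)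
    have m2 : MeasurableSet {ω : Om | (ω.1, Function.update ω.2 h b) ∈ A} :=
      hA.preimage (measurable_upd h b)
    rw [Measure.prod_apply (hA.inter m1), Measure.prod_apply m2,
      ← lintegral_const_mul _ (measurable_measure_prodMk_left m2)]
    refine lintegral_congr fun θ => ?_
    exact MP_77ae5d_pr.H74.measure_inter_coord (fun _ => ber s)
      (hA.preimage measurable_prodMk_left) h b
  have m1 : MeasurableSet {ω : Om | ω.2 h = true} :=
    (measurableSet_singleton true).preimage ((measurable_pi_apply h).comp measurable_snd)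
  rw [← measureReal_inter_add_sdiff (s := A) m1]
  have e : A \ {ω : Om | ω.2 h = true} = A ∩ {ω | ω.2 h = false} := by ext ω; simp
  rw [e]
  simp only [measureReal_def, key, ENNReal.toReal_mul, ber_true h0 h1, ber_false h0 h1]
  rw [ENNReal.toReal_ofReal h0, ENNReal.toReal_ofReal (by linarith)]

theorem russo : RussoStmt := by
  intro μ _ H
  induction H using Finset.induction_on with
  | empty =>
    intro A hA hd q _
    have e : ∀ s, (μ.prod (nu s)).real A = (μ.prod (nu q)).real A := by
      intro s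
      simp only [measureReal_def]
      rw [Measure.prod_apply hA, Measure.prod_apply hA]
      congr 1
      refine lintegral_congr fun θ => ?_
      rcases (Prod.mk θ ⁻¹' A).eq_empty_or_nonempty with h | ⟨x, hx⟩
      · rw [h]; simp
      · have : Prod.mk θ ⁻¹' A = univ := eq_univ_of_forall fun y => hd θ x y (by simp) hx
        rw [this]; simp
    simp only [e, Finset.sum_empty]
    exact hasDerivAt_const _ _
  | insert h H hh ih =>
    intro A hA hd q hq
    have mA : ∀ b, MeasurableSet {ω : Om | (ω.1, Function.update ω.2 h b) ∈ A} :=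
      fun b => hA.preimage (measurable_upd h b)
    have dA : ∀ b θ, MP_77ae5d_pr.H74.Dep
        {x | (θ, x) ∈ {ω : Om | (ω.1, Function.update ω.2 h b) ∈ A}} (H : Set V) := by
      intro b θ η ζ hηζ hη
      refine hd θ _ _ (fun j hj => ?_) hη
      by_cases hji : j = h
      · subst hji; simp
      · simp only [Function.update_of_ne hji]
        apply hηζ
        simpa [hji] using hj
    have d1 := ih _ (mA true) (dA true) q hq
    have d0 := ih _ (mA false) (dA false) q hq
    have dd := ((hasDerivAt_id q).mul d1).add (((hasDerivAt_id q).const_sub 1).mul d0)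
    refine (dd.congr_of_eventuallyEq ?_).congr_deriv ?_
    · filter_upwards [Ioo_mem_nhds hq.1 hq.2] with s hs
      exact split μ hA h hs.1.le hs.2.le
    · rw [Finset.sum_insert hh]
      have e : ∀ k ∈ H, ∀ b, (μ.prod (nu q)).real {ω | (ω.1, Function.update ω.2 k b) ∈ A} =
          q * (μ.prod (nu q)).real {ω | (ω.1, Function.update ω.2 k b) ∈
            {ω : Om | (ω.1, Function.update ω.2 h true) ∈ A}} +
          (1 - q) * (μ.prod (nu q)).real {ω | (ω.1, Function.update ω.2 k b) ∈
            {ω : Om | (ω.1, Function.update ω.2 h false) ∈ A}} := by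
        intro k hk b
        have hkh : h ≠ k := fun e => hh (e ▸ hk)
        have m : MeasurableSet {ω : Om | (ω.1, Function.update ω.2 k b) ∈ A} :=
          hA.preimage (measurable_upd k b)
        rw [split μ m h hq.1.le hq.2.le]
        simp only [mem_ofPred_eq, Function.update_comm hkh]
      simp only [id, Finset.mul_sum]
      rw [add_add_add_comm, ← Finset.sum_add_distrib]
      congr 1
      · ring
      · exact Finset.sum_congr rfl fun k hk => by rw [e k hk true, e k hk false]; ring

end Pool.Agent.MP_887f27_pr.H12
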